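import Pool.Agent.Helper10.Fam.Stmts

/-!
# Module FIN: the main theorem for one lattice
-/

set_option autoImplicit false

namespace Pool.Agent.Helper10.Fam

open Pool.Agent.Helper10.Lor

theorem st_FIN (hL : ST_LATT) (hC : ST_COV) (hW : ST_WGT) : ST_FIN := by
  intro D β CL CU Ex hβ hG κ δ hκ hδ hb Δ hfi f hf hinv hbdd lam heig hcusp hne
  obtain ⟨C, a, ha, hcov⟩ := hC D β hG.dok hβ
  refine Pool.Agent.Helper10.Lor.main hG.dok.npos (hL.even D β hG.dok hβ) ha hcov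
    (mul_pos hκ hδ) (hW D β CL CU Ex hβ hG κ δ hκ hδ hb) hδ ?_ Δ hfi f hf hinv hbdd lam heig
    hcusp hne
  have h1 := Real.pi_gt_d6
  have h2 : (39478 : ℝ) / 1000 ≤ 4 * Real.pi ^ 2 := by nlinarith
  exact mul_le_mul_of_nonneg_right h2 hδ.le

end Pool.Agent.Helper10.Fam
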