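import Pool.Agent.Helper10.Fam.Stmts

/-!
# Module INIT: the initial cone is the positive orthant
-/

set_option autoImplicit false

namespace Pool.Agent.Helper10.Fam

lemma init_aux (hB : ST_LSTB) (N : ℕ) : ∀ (L : List Vr) (k : ℕ), initOK N k L = true →
    ∀ x : ℕ → ℝ, (∀ i, 0 ≤ x i) → (∀ i, i < k → x i = 0) → (∀ i, N ≤ i → x i = 0) →
    InCone L x := by
  intro L
  induction L with
  | nil =>
    intro k hk x _ hx1 hx2
    have hkN : k = N := Nat.eq_of_beq_eq_true hk
    apply InCone.nil
    intro i
    rcases lt_or_ge i k with h | h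
    · exact hx1 i h
    · exact hx2 i (hkN ▸ h)
  | cons v L ih =>
    intro k hk x hx0 hx1 hx2
    have hk' : (isUnit N k v.v && initOK N (k + 1) L) = true := hk
    rw [Bool.and_eq_true] at hk'
    obtain ⟨-, hpos, hz⟩ := hB.isUnit N k v.v hk'.1
    refine InCone.cons v L (x k / fn v.v k) x (fun i => if i = k then 0 else x i)
      (div_nonneg (hx0 k) hpos.le) ?_ ?_
    · apply ih (k + 1) hk'.2
      · intro i
        show 0 ≤ (if i = k then (0 : ℝ) else x i)
        split_ifs
        · exact le_refl _
        · exact hx0 i
      · intro i hi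
        show (if i = k then (0 : ℝ) else x i) = 0
        split_ifs with h
        · rfl
        · exact hx1 i (by omega)
      · intro i hi
        show (if i = k then (0 : ℝ) else x i) = 0
        split_ifs with h
        · rfl
        · exact hx2 i hi
    · intro i
      show x i = x k / fn v.v k * fn v.v i + (if i = k then (0 : ℝ) else x i)
      by_cases h : i = k
      · subst h
        rw [if_pos rfl, div_mul_cancel₀ _ hpos.ne', add_zero]
      · rw [if_neg h, hz i h, mul_zero, zero_add]

theorem st_INIT (hB : ST_LSTB) : ST_INIT := by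
  intro N L hL x hx0 hx2
  exact init_aux hB N L 0 hL x hx0 (fun i hi => absurd hi (Nat.not_lt_zero i)) hx2

end Pool.Agent.Helper10.Fam
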